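import Pool.Agent.helper613_wm.W17

/-!
The asymptotic formula of Manin for smooth hypersurfaces `X : ∑ A_ij y_i^k y_j^k = 0` of degree
`2 k` in projective spaces of dimension `s - 1` over the rational numbers, where `s` is only
polynomially large in `k`, for the anticanonical height `H(P)^(s - 2k)`, with the full set of
rational points.

* `form A k`: the form `∑ A_ij y_i^k y_j^k`.
* `Smooth A k`: no complex vector `y ≠ 0` is a zero of all partial derivatives of the form.
* `Pts A k B`: the rational points `P` of `X` with `H(P)^(s - 2k) ≤ B`, where `H` is the height of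
  Mathlib for points of projective space over the rational numbers (the maximum of the absolute
  values of the coordinates of a primitive integer representative).
* `LocallySoluble A k`: there are nonzero zeros over the real numbers and over all `ℤ_p`.
* `I`, `J`: the rows and columns of a nonzero minor of `A` of order `3000 k^5`, with no index in
  common.
-/

set_option autoImplicit false

namespace Pool.Agent.Results.MP_1acd66_nt.QuadraticFormsInPowersAsymptotic

open MvPolynomial Filter Topology

/-- the form `∑ A_ij y_i^k y_j^k` -/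
noncomputable def form {s : ℕ} (A : Matrix (Fin s) (Fin s) ℤ) (k : ℕ) : MvPolynomial (Fin s) ℤ :=
  ∑ i, ∑ j, C (A i j) * X i ^ k * X j ^ k

/-- the hypersurface is smooth: the partial derivatives have no common complex zero but `0` -/
def Smooth {s : ℕ} (A : Matrix (Fin s) (Fin s) ℤ) (k : ℕ) : Prop :=
  ∀ y : Fin s → ℂ, (∀ l, aeval y (pderiv l (form A k)) = 0) → y = 0

/-- the rational points `P` of the hypersurface with `H(P)^(s - 2k) ≤ B` -/
def Pts {s : ℕ} (A : Matrix (Fin s) (Fin s) ℤ) (k : ℕ) (B : ℝ) :
    Set (Projectivization ℚ (Fin s → ℚ)) :=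
  {P | aeval P.rep (form A k) = 0 ∧ P.mulHeight ^ (s - 2 * k) ≤ B}

/-- a nonzero real zero -/
def RealPoint {s : ℕ} (A : Matrix (Fin s) (Fin s) ℤ) (k : ℕ) : Prop :=
  ∃ y : Fin s → ℝ, y ≠ 0 ∧ aeval y (form A k) = 0

/-- nonzero real and `p`-adic zeros -/
def LocallySoluble {s : ℕ} (A : Matrix (Fin s) (Fin s) ℤ) (k : ℕ) : Prop :=
  RealPoint A k ∧
  ∀ (p : ℕ) [Fact p.Prime], ∃ z : Fin s → ℤ_[p], z ≠ 0 ∧ aeval z (form A k) = 0

/-- Let `A` be a symmetric integer matrix with a nonzero minor of order `3000 k^5` whose rows and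
columns are disjoint. Then the number of rational points of `X : ∑ A_ij y_i^k y_j^k = 0` of
anticanonical height at most `B` is `(c + o(1)) B` for some `c ≥ 0`. If `X` is smooth, then `c > 0`
if and only if `X` is everywhere locally soluble, and for `s ≥ 10^35 k^65` a real point is enough
for `c > 0`. -/
theorem result (k : ℕ) (hk : 1 ≤ k) (s : ℕ) (A : Matrix (Fin s) (Fin s) ℤ) (hA : A.IsSymm)
    (I J : Fin (3000 * k ^ 5) → Fin s) (hI : Function.Injective I) (hJ : Function.Injective J)
    (hIJ : ∀ i j, I i ≠ J j) (hdet : (A.submatrix I J).det ≠ 0) :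
    (∀ B : ℝ, (Pts A k B).Finite) ∧ ∃ c : ℝ, 0 ≤ c ∧
      Tendsto (fun B : ℝ => ((Pts A k B).ncard : ℝ) / B) atTop (𝓝 c) ∧
      (Smooth A k → (0 < c ↔ LocallySoluble A k) ∧
        (10 ^ 35 * k ^ 65 ≤ s → RealPoint A k → 0 < c)) :=
  Pool.Agent.helper613_wm.main4 k hk s A hA I J hI hJ hIJ hdet

end Pool.Agent.Results.MP_1acd66_nt.QuadraticFormsInPowersAsymptotic
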